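import Mathlib
import Pool.Agent.H520R3.Weyl

/-!
Correlations of `e (f b 2 ^ n y)` for `y` with one random binary digit in each window of length `L`.
-/

set_option autoImplicit false

namespace Pool.Agent.Run7.h792.IM

open Finset Pool.Agent.H520R3

/-- the window average -/
noncomputable def c (θ : ℝ) (L a : ℕ) : ℝ := ‖∑ v ∈ range L, e (θ * 2 ^ (a + v))‖ / L

lemma c_nonneg (θ : ℝ) (L a : ℕ) : 0 ≤ c θ L a := by unfold c; positivity

lemma c_le_one (θ : ℝ) (L a : ℕ) : c θ L a ≤ 1 := by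
  unfold c
  apply div_le_one_of_le₀ _ (by positivity)
  refine (norm_sum_le _ _).trans ?_
  simp [norm_e]

/-- two consecutive unit vectors far from each other -/
lemma sum_le_of_pair {u : ℕ → ℂ} (hu : ∀ v, ‖u v‖ = 1) {L v : ℕ} (hv : v + 1 < L)
    (h : 1 / 2 ≤ ‖u v - u (v + 1)‖) : ‖∑ v ∈ range L, u v‖ ≤ L - 1 / 20 := by
  have h1 : ‖u v + u (v + 1)‖ ≤ 39 / 20 := by
    have h2 := parallelogram_law_with_norm ℝ (u v) (u (v + 1))
    rw [hu, hu] at h2
    have h3 : 0 ≤ ‖u v + u (v + 1)‖ := norm_nonneg _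
    nlinarith [norm_nonneg (u v - u (v + 1))]
  have h2 : v ∈ range L := mem_range.2 (by omega)
  have h3 : v + 1 ∈ (range L).erase v := by
    rw [mem_erase, mem_range]; omega
  rw [← add_sum_erase _ _ h2, ← add_sum_erase _ _ h3, ← add_assoc]
  refine (norm_add_le _ _).trans ?_
  have h4 : ‖∑ x ∈ ((range L).erase v).erase (v + 1), u x‖ ≤ (L : ℝ) - 2 := by
    refine (norm_sum_le _ _).trans ?_
    simp only [hu, sum_const, nsmul_eq_mul, mul_one]
    rw [card_erase_of_mem h3, card_erase_of_mem h2, card_range]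
    have : 2 ≤ L := by omega
    have : L - 1 - 1 = L - 2 := by omega
    rw [this, Nat.cast_sub (by omega)]
    push_cast
    exact le_refl _
  linarith

/-- distance to the integers at least one quarter -/
def Q4 (x : ℝ) : Prop := ∀ p : ℤ, 1 / 4 ≤ |x - p|

lemma four_le {x δ : ℝ} (h : ∀ p : ℤ, δ ≤ |x - p|) : 4 * δ ≤ ‖e x - 1‖ := by
  have h1 := four_mul_le x
  have h2 := h (round x)
  linarith

lemma e_two (x : ℝ) : e (2 * x) = e x * e x := by
  rw [← e_add]; congr 1; ring

lemma c_le_of_Q4 {θ : ℝ} {L a j : ℕ} (hL : 2 ≤ L) (h1 : a ≤ j) (h2 : j < a + L)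
    (h : Q4 (θ * 2 ^ j)) : c θ L a ≤ 1 - 1 / (20 * L) := by
  have hL0 : (0 : ℝ) < L := by positivity
  set u : ℕ → ℂ := fun v => e (θ * 2 ^ (a + v)) with hu
  have hdiff : ∀ v, ‖u v - u (v + 1)‖ = ‖e (θ * 2 ^ (a + v)) - 1‖ := by
    intro v
    have h3 : u (v + 1) = e (θ * 2 ^ (a + v)) * e (θ * 2 ^ (a + v)) := by
      rw [← e_two]
      simp only [hu]
      congr 1
      rw [← add_assoc, pow_succ]
      ring
    rw [h3]
    have h4 : u v - e (θ * 2 ^ (a + v)) * e (θ * 2 ^ (a + v))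
        = -(e (θ * 2 ^ (a + v)) * (e (θ * 2 ^ (a + v)) - 1)) := by
      simp only [hu]; ring
    rw [h4, norm_neg, norm_mul, norm_e, one_mul]
  have key : ‖∑ v ∈ range L, u v‖ ≤ L - 1 / 20 := by
    rcases Nat.lt_or_ge (j - a + 1) L with h3 | h3
    · apply sum_le_of_pair (fun v => norm_e _) h3
      rw [hdiff, Nat.add_sub_cancel' h1]
      have := four_le h
      linarith
    · -- use the previous exponent
      obtain ⟨v, hv⟩ : ∃ v, j = a + (v + 1) := ⟨j - a - 1, by omega⟩
      apply sum_le_of_pair (v := v) (fun v => norm_e _) (by omega)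
      rw [hdiff]
      have h4 : ∀ p : ℤ, 1 / 8 ≤ |θ * 2 ^ (a + v) - p| := by
        intro p
        have h5 := h (2 * p)
        rw [hv] at h5
        have h6 : θ * 2 ^ (a + (v + 1)) - ((2 * p : ℤ) : ℝ) = 2 * (θ * 2 ^ (a + v) - p) := by
          push_cast
          rw [← add_assoc, pow_succ]
          ring
        rw [h6, abs_mul, abs_two] at h5
        linarith
      have := four_le h4
      linarith
  unfold c
  rw [div_le_iff₀ hL0]
  refine key.trans (le_of_eq ?_)
  field_simp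

/-- an irrational number is often far from the integers -/
lemma exists_Q4 {θ : ℝ} (hθ : Irrational θ) (J : ℕ) : ∃ j, J ≤ j ∧ Q4 (θ * 2 ^ j) := by
  by_contra hcon
  push Not at hcon
  unfold Q4 at hcon
  push Not at hcon
  choose! p hp using hcon
  have h1 : ∀ s, |θ * 2 ^ (J + s) - p (J + s)| = 2 ^ s * |θ * 2 ^ J - p J| := by
    intro s
    induction s with
    | zero => simp
    | succ s ih =>
      have h2 := hp (J + s) (by omega)
      have h3 := hp (J + s + 1) (by omega)
      have h4 : p (J + s + 1) = 2 * p (J + s) := by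
        have h5 : θ * 2 ^ (J + s + 1) = 2 * (θ * 2 ^ (J + s)) := by rw [pow_succ]; ring
        rw [h5] at h3
        have h6 : |((2 * p (J + s) - p (J + s + 1) : ℤ) : ℝ)| < 1 := by
          push_cast
          rw [abs_lt] at h2 h3 ⊢
          constructor <;> linarith [h2.1, h2.2, h3.1, h3.2]
        have h7 : |(2 * p (J + s) - p (J + s + 1) : ℤ)| < 1 := by exact_mod_cast h6
        have h8 := Int.abs_lt_one_iff.1 h7
        linarith
      rw [← add_assoc, h4, pow_succ, pow_succ]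
      have h9 : θ * (2 ^ (J + s) * 2) - ((2 * p (J + s) : ℤ) : ℝ)
          = 2 * (θ * 2 ^ (J + s) - p (J + s)) := by push_cast; ring
      rw [h9, abs_mul, abs_two, ih]
      ring
  have h2 : |θ * 2 ^ J - p J| = 0 := by
    by_contra hne
    have hpos : 0 < |θ * 2 ^ J - p J| := lt_of_le_of_ne (abs_nonneg _) (Ne.symm hne)
    obtain ⟨s, hs⟩ := pow_unbounded_of_one_lt (1 / |θ * 2 ^ J - p J|) (show (1 : ℝ) < 2 by norm_num)
    have h3 := hp (J + s) (by omega)
    rw [h1] at h3
    rw [div_lt_iff₀ hpos] at hs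
    linarith
  rw [abs_eq_zero, sub_eq_zero] at h2
  apply hθ
  refine ⟨(p J : ℚ) / 2 ^ J, ?_⟩
  push_cast
  rw [← h2]
  field_simp

/-- products of window averages are small -/
lemma exists_prod_small {θ : ℝ} (hθ : Irrational θ) {L : ℕ} (hL : 2 ≤ L) (a : ℕ) {η : ℝ}
    (hη : 0 < η) : ∃ R₀, ∀ R, R₀ ≤ R → ∏ t ∈ range R, c θ L (a + t * L) ≤ η := by
  have hL0 : (0 : ℝ) < L := by positivity
  set κ : ℝ := 1 - 1 / (20 * L) with hκ
  have hκ1 : κ < 1 := by
    have : (0 : ℝ) < 1 / (20 * L) := by positivity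
    linarith
  have hκ0 : 0 ≤ κ := by
    rw [hκ, sub_nonneg, div_le_one (by positivity)]
    have : (2 : ℝ) ≤ L := by exact_mod_cast hL
    linarith
  have hmono : ∀ R R', R ≤ R' → ∏ t ∈ range R', c θ L (a + t * L)
      ≤ ∏ t ∈ range R, c θ L (a + t * L) := by
    intro R R' h
    induction R', h using Nat.le_induction with
    | base => exact le_refl _
    | succ n hn ih =>
      rw [prod_range_succ]
      refine (mul_le_of_le_one_right (prod_nonneg fun _ _ => c_nonneg _ _ _) (c_le_one _ _ _)).trans ih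
  have key : ∀ m : ℕ, ∃ R, ∏ t ∈ range R, c θ L (a + t * L) ≤ κ ^ m := by
    intro m
    induction m with
    | zero => exact ⟨0, by simp⟩
    | succ m ih =>
      obtain ⟨R, hR⟩ := ih
      obtain ⟨j, hj, hQ⟩ := exists_Q4 hθ (a + R * L)
      set t := (j - a) / L with ht
      have hLpos : 0 < L := by omega
      have h1 : t * L ≤ j - a := Nat.div_mul_le_self _ _
      have h2 : j - a < t * L + L := by
        have := Nat.lt_div_mul_add (a := j - a) hLpos
        omega
      have h3 : R ≤ t := by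
        rw [ht, Nat.le_div_iff_mul_le hLpos]
        omega
      refine ⟨t + 1, ?_⟩
      rw [prod_range_succ, pow_succ]
      apply mul_le_mul ((hmono R t h3).trans hR) _ (c_nonneg _ _ _) (by positivity)
      exact c_le_of_Q4 hL (by omega) (by omega) hQ
  obtain ⟨m, hm⟩ := exists_pow_lt_of_lt_one hη hκ1
  obtain ⟨R, hR⟩ := key m
  exact ⟨R, fun R' hR' => (hmono R R' hR').trans (hR.trans hm.le)⟩

/-- uniform version over the alignments and the frequencies -/
lemma exists_R {b : ℝ} (hb : Irrational b) {L : ℕ} (hL : 2 ≤ L) (F : ℕ) {η : ℝ}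
    (hη : 0 < η) : ∃ R, ∀ a < L, ∀ f, 1 ≤ f → f ≤ F →
      ∏ t ∈ range R, c (f * b) L (a + t * L) ≤ η := by
  have h1 : ∀ p : ℕ × ℕ, ∃ R₀, 1 ≤ p.2 → ∀ R, R₀ ≤ R →
      ∏ t ∈ range R, c (p.2 * b) L (p.1 + t * L) ≤ η := by
    intro p
    by_cases hp : 1 ≤ p.2
    · have : Irrational ((p.2 : ℝ) * b) := by
        apply hb.natCast_mul
        omega
      obtain ⟨R₀, h⟩ := exists_prod_small this hL p.1 hη
      exact ⟨R₀, fun _ => h⟩
    · exact ⟨0, fun h => absurd h hp⟩
  choose R₀ hR₀ using h1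
  refine ⟨(range L ×ˢ range (F + 1)).sup R₀, fun a ha f hf1 hf2 => ?_⟩
  apply hR₀ (a, f) hf1
  apply le_sup (f := R₀)
  rw [mem_product, mem_range, mem_range]
  exact ⟨ha, by omega⟩

/-- perturbation of a product of numbers in `[0, 1]` -/
lemma prod_le_add {x z : ℕ → ℝ} {ε : ℝ} (hx0 : ∀ t, 0 ≤ x t) (hx1 : ∀ t, x t ≤ 1)
    (hz0 : ∀ t, 0 ≤ z t) (hz1 : ∀ t, z t ≤ 1) (hε : 0 ≤ ε) (R : ℕ) (h : ∀ t < R, x t ≤ z t + ε) :
    ∏ t ∈ range R, x t ≤ ∏ t ∈ range R, z t + R * ε := by
  induction R with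
  | zero => simp
  | succ R ih =>
    rw [prod_range_succ, prod_range_succ]
    have h1 := ih fun t ht => h t (by omega)
    have h2 := h R (by omega)
    have h3 : 0 ≤ ∏ t ∈ range R, x t := prod_nonneg fun t _ => hx0 t
    have h4 : ∏ t ∈ range R, x t ≤ 1 := prod_le_one (fun t _ => hx0 t) fun t _ => hx1 t
    have h5 : (∏ t ∈ range R, x t) * x R ≤ (∏ t ∈ range R, x t) * z R + ε := by
      have := mul_le_mul_of_nonneg_left h2 h3
      nlinarith
    have h6 : (∏ t ∈ range R, x t) * z R ≤ (∏ t ∈ range R, z t) * z R + R * ε := by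
      have h7 := mul_le_mul_of_nonneg_right h1 (hz0 R)
      have h8 : (R : ℝ) * ε * z R ≤ R * ε := mul_le_of_le_one_right (by positivity) (hz1 R)
      nlinarith
    push_cast
    linarith

end Pool.Agent.Run7.h792.IM
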