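import Mathlib
import Pool.Agent.Run7.h792.IM.Corr

/-!
Second moment over the digits of one stage.
-/

set_option autoImplicit false

namespace Pool.Agent.Run7.h792.IM

open Finset Pool.Agent.H520R3

/-- the choices of the digits: one position in each of `M` windows of length `L` -/
abbrev Om (L M : ℕ) : Finset (Fin M → ℕ) := Fintype.piFinset (fun _ => range L)

lemma card_Om (L M : ℕ) : (Om L M).card = L ^ M := by
  simp [Om, Fintype.card_piFinset]

/-- the number with the new digits -/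
noncomputable def yV (y₀ : ℝ) (I L M : ℕ) (V : Fin M → ℕ) : ℝ :=
  y₀ + ∑ i : Fin M, (1 / 2 : ℝ) ^ ((I + i) * L + V i)

/-- the average over one window -/
noncomputable def sw (A : ℝ) (I L i : ℕ) : ℝ :=
  ‖∑ v ∈ range L, e (A * (1 / 2) ^ ((I + i) * L + v))‖ / L

lemma sw_nonneg (A : ℝ) (I L i : ℕ) : 0 ≤ sw A I L i := by unfold sw; positivity

lemma sw_le_one (A : ℝ) (I L i : ℕ) : sw A I L i ≤ 1 := by
  unfold sw
  apply div_le_one_of_le₀ _ (by positivity)
  refine (norm_sum_le _ _).trans ?_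
  simp [norm_e]

lemma norm_sum_prod (A y₀ : ℝ) {I L M : ℕ} (hL : 0 < L) :
    ‖∑ V ∈ Om L M, e (A * yV y₀ I L M V)‖ = (L : ℝ) ^ M * ∏ i ∈ range M, sw A I L i := by
  have hL' : (0 : ℝ) < L := by exact_mod_cast hL
  have h1 : ∀ V ∈ Om L M, e (A * yV y₀ I L M V)
      = e (A * y₀) * ∏ i : Fin M, e (A * (1 / 2) ^ ((I + i) * L + V i)) := by
    intro V _
    unfold yV
    rw [mul_add, e_add, mul_sum, e_sum]
  rw [sum_congr rfl h1, ← mul_sum, norm_mul, norm_e, one_mul]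
  have h2 := Finset.prod_univ_sum (fun _ : Fin M => range L)
    (fun i v => e (A * (1 / 2) ^ ((I + i) * L + v)))
  rw [← h2, norm_prod]
  have h3 : ∀ i : Fin M, ‖∑ v ∈ range L, e (A * (1 / 2) ^ ((I + i) * L + v))‖
      = L * sw A I L i := by
    intro i
    unfold sw
    field_simp
  rw [prod_congr rfl fun i _ => h3 i, prod_mul_distrib, prod_const, card_univ, Fintype.card_fin,
    Fin.prod_univ_eq_prod_range (fun i => sw A I L i) M]

/-- a product of numbers in `[0, 1]` decreases with the index set -/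
lemma prod_le_of_subset {s t : Finset ℕ} (h : t ⊆ s) {x : ℕ → ℝ} (h0 : ∀ i, 0 ≤ x i)
    (h1 : ∀ i, x i ≤ 1) : ∏ i ∈ s, x i ≤ ∏ i ∈ t, x i := by
  rw [← prod_sdiff h]
  apply mul_le_of_le_one_left (prod_nonneg fun i _ => h0 i)
  exact prod_le_one (fun i _ => h0 i) fun i _ => h1 i

lemma pair_bound (θ y₀ : ℝ) {I L M R w n n' : ℕ} (hL : 2 ≤ L) (h1 : I * L ≤ n')
    (h2 : n' + (R + 1) * L + w ≤ n) (h3 : n + 1 ≤ (I + M) * L) :
    ‖∑ V ∈ Om L M, e (θ * (2 ^ n - 2 ^ n') * yV y₀ I L M V)‖ ≤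
      (L : ℝ) ^ M * (∏ t ∈ range R, c θ L ((n + 1) % L + t * L)
        + R * (2 * Real.pi * |θ| * (1 / 2) ^ w)) := by
  have hL0 : 0 < L := by omega
  have hL' : (0 : ℝ) < L := by exact_mod_cast hL0
  rw [norm_sum_prod _ _ hL0]
  apply mul_le_mul_of_nonneg_left _ (by positivity)
  set A : ℝ := θ * (2 ^ n - 2 ^ n') with hA
  -- the last windows before `n`
  set G := (n + 1) / L with hG
  have hG1 : G * L ≤ n + 1 := Nat.div_mul_le_self _ _
  have hG2 : n + 1 < G * L + L := by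
    have := Nat.lt_div_mul_add (a := n + 1) hL0
    omega
  have hmod : (n + 1) % L + G * L = n + 1 := by
    rw [mul_comm]; exact Nat.mod_add_div _ _
  have hGR : I + R + 1 ≤ G := by
    by_contra hc
    push Not at hc
    have : G ≤ I + R := by omega
    have := Nat.mul_le_mul_right L this
    rw [add_mul] at this
    rw [add_mul] at h2
    omega
  have hGM : G ≤ I + M := by
    by_contra hc
    push Not at hc
    have : I + M + 1 ≤ G := hc
    have := Nat.mul_le_mul_right L this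
    rw [add_mul (I + M)] at this
    omega
  have hsub : (range R).image (fun t => G - 1 - I - t) ⊆ range M := by
    intro i hi
    rw [mem_image] at hi
    obtain ⟨t, ht, rfl⟩ := hi
    rw [mem_range] at ht ⊢
    omega
  refine (prod_le_of_subset hsub (fun i => sw_nonneg _ _ _ _) (fun i => sw_le_one _ _ _ _)).trans ?_
  rw [prod_image (by
    intro a ha b hb hab
    simp only [coe_range, Set.mem_Iio] at ha hb
    simp only at hab
    omega)]
  apply prod_le_add (fun t => sw_nonneg _ _ _ _) (fun t => sw_le_one _ _ _ _)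
    (fun t => c_nonneg _ _ _) (fun t => c_le_one _ _ _) (by positivity)
  intro t ht
  unfold sw c
  rw [← sum_range_reflect]
  have h4 : ∀ v ∈ range L, ‖e (A * (1 / 2) ^ ((I + (G - 1 - I - t)) * L + (L - 1 - v)))
      - e (θ * 2 ^ ((n + 1) % L + t * L + v))‖ ≤ 2 * Real.pi * |θ| * (1 / 2) ^ w := by
    intro v hv
    rw [mem_range] at hv
    refine (norm_e_sub_e_le _ _).trans ?_
    rw [mul_assoc (2 * Real.pi)]
    apply mul_le_mul_of_nonneg_left _ (by positivity)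
    set k := (I + (G - 1 - I - t)) * L + (L - 1 - v) with hk
    have hk1 : I + (G - 1 - I - t) = G - 1 - t := by omega
    have hk2 : (G - 1 - t) * L + (t + 1) * L = G * L := by
      rw [← add_mul]; congr 1; omega
    have hk3 : (t + 1) * L = t * L + L := by ring
    have hkn : k + ((n + 1) % L + t * L + v) = n := by
      rw [hk, hk1]
      omega
    have htR : (t + 1) * L ≤ R * L := Nat.mul_le_mul_right L (by omega)
    have hkn' : n' + w ≤ k := by
      rw [add_mul] at h2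
      rw [hk, hk1]
      omega
    have hpow : ∀ k j : ℕ, (2 : ℝ) ^ (k + j) * (1 / 2) ^ k = 2 ^ j := by
      intro k j
      rw [pow_add, one_div, inv_pow]
      field_simp
    have h5 : (2 : ℝ) ^ n * (1 / 2) ^ k = 2 ^ ((n + 1) % L + t * L + v) := by
      have := hpow k ((n + 1) % L + t * L + v)
      rwa [hkn] at this
    have h6 : A * (1 / 2) ^ k - θ * 2 ^ ((n + 1) % L + t * L + v) = -(θ * (2 ^ n' * (1 / 2) ^ k)) := by
      rw [← h5, hA]; ring
    rw [h6, abs_neg, abs_mul]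
    apply mul_le_mul_of_nonneg_left _ (abs_nonneg _)
    rw [abs_of_nonneg (by positivity)]
    obtain ⟨g, hg⟩ := Nat.exists_eq_add_of_le hkn'
    rw [hg, pow_add, pow_add]
    have h7 : (2 : ℝ) ^ n' * ((1 / 2) ^ n' * (1 / 2) ^ w * (1 / 2) ^ g)
        = (1 / 2) ^ w * (1 / 2) ^ g := by
      have : (2 : ℝ) ^ n' * (1 / 2) ^ n' = 1 := by rw [← mul_pow]; norm_num
      calc (2 : ℝ) ^ n' * ((1 / 2) ^ n' * (1 / 2) ^ w * (1 / 2) ^ g)
          = (2 : ℝ) ^ n' * (1 / 2) ^ n' * ((1 / 2) ^ w * (1 / 2) ^ g) := by ring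
        _ = _ := by rw [this, one_mul]
    rw [h7]
    exact mul_le_of_le_one_right (by positivity) (pow_le_one₀ (by norm_num) (by norm_num))
  rw [div_le_iff₀ hL']
  have h9 : (‖∑ v ∈ range L, e (θ * 2 ^ ((n + 1) % L + t * L + v))‖ / L
      + 2 * Real.pi * |θ| * (1 / 2) ^ w) * L
      = ‖∑ v ∈ range L, e (θ * 2 ^ ((n + 1) % L + t * L + v))‖
        + 2 * Real.pi * |θ| * (1 / 2) ^ w * L := by
    field_simp
  rw [h9]
  have h8 : ∑ v ∈ range L, e (A * (1 / 2) ^ ((I + (G - 1 - I - t)) * L + (L - 1 - v)))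
      = ∑ v ∈ range L, e (θ * 2 ^ ((n + 1) % L + t * L + v))
        + ∑ v ∈ range L, (e (A * (1 / 2) ^ ((I + (G - 1 - I - t)) * L + (L - 1 - v)))
      - e (θ * 2 ^ ((n + 1) % L + t * L + v))) := by
    rw [← sum_add_distrib]
    exact sum_congr rfl fun v _ => by ring
  rw [h8]
  refine (norm_add_le _ _).trans (add_le_add (le_refl _) ?_)
  refine (norm_sum_le _ _).trans ((sum_le_sum h4).trans ?_)
  rw [sum_const, card_range, nsmul_eq_mul, mul_comm]

/-- second moment of the exponential sums -/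
lemma second_moment (θ y₀ : ℝ) {I L M R w : ℕ} {η : ℝ} (hη : 0 ≤ η) (hL : 2 ≤ L)
    (hR : ∀ a < L, ∏ t ∈ range R, c θ L (a + t * L) ≤ η)
    (hw : R * (2 * Real.pi * |θ| * (1 / 2) ^ w) ≤ η) :
    ∑ V ∈ Om L M, ‖∑ n ∈ Ico (I * L) ((I + M) * L), e (θ * 2 ^ n * yV y₀ I L M V)‖ ^ 2 ≤
      (L : ℝ) ^ M * ((M * L : ℝ) * (2 * ((R + 1) * L + w : ℕ)) + 2 * η * (M * L : ℝ) ^ 2) := by
  have hL0 : 0 < L := by omega
  have hL' : (0 : ℝ) < L := by exact_mod_cast hL0
  set J := Ico (I * L) ((I + M) * L) with hJ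
  have hJc : (J.card : ℝ) = M * L := by
    rw [hJ, Nat.card_Ico, add_mul, Nat.add_sub_cancel_left]
    push_cast; ring
  set D := (R + 1) * L + w with hD
  -- correlations
  have hcorr : ∀ n ∈ J, ∀ n' ∈ J, ‖∑ V ∈ Om L M, e (θ * 2 ^ n * yV y₀ I L M V)
      * (starRingEnd ℂ) (e (θ * 2 ^ n' * yV y₀ I L M V))‖
      ≤ (L : ℝ) ^ M * ((if n < n' + D ∧ n' < n + D then 1 else 0) + 2 * η) := by
    have hlt : ∀ n ∈ J, ∀ n' ∈ J, n' + D ≤ n → ‖∑ V ∈ Om L M, e (θ * 2 ^ n * yV y₀ I L M V)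
      * (starRingEnd ℂ) (e (θ * 2 ^ n' * yV y₀ I L M V))‖ ≤ (L : ℝ) ^ M * (2 * η) := by
      intro n hn n' hn' hnn
      rw [hJ, mem_Ico] at hn hn'
      have h1 : ∀ V ∈ Om L M, e (θ * 2 ^ n * yV y₀ I L M V)
          * (starRingEnd ℂ) (e (θ * 2 ^ n' * yV y₀ I L M V))
          = e (θ * (2 ^ n - 2 ^ n') * yV y₀ I L M V) := by
        intro V _
        rw [← e_neg, ← e_add]
        congr 1; ring
      rw [sum_congr rfl h1]
      refine (pair_bound θ y₀ hL (R := R) (w := w) hn'.1 (by omega) (by omega)).trans ?_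
      apply mul_le_mul_of_nonneg_left _ (by positivity)
      have := hR ((n + 1) % L) (Nat.mod_lt _ hL0)
      linarith
    intro n hn n' hn'
    split_ifs with h
    · refine (norm_sum_le _ _).trans ?_
      have h2 : ∀ V ∈ Om L M, ‖e (θ * 2 ^ n * yV y₀ I L M V)
          * (starRingEnd ℂ) (e (θ * 2 ^ n' * yV y₀ I L M V))‖ = 1 := by
        intro V _
        rw [norm_mul, RCLike.norm_conj, norm_e, norm_e, one_mul]
      rw [sum_congr rfl h2, sum_const, card_Om, nsmul_eq_mul, mul_one]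
      push_cast
      have : (0 : ℝ) < (L : ℝ) ^ M := by positivity
      nlinarith
    · rw [zero_add]
      rcases Nat.lt_or_ge n (n' + D) with h3 | h3
      · have h4 : n + D ≤ n' := by
          by_contra hc
          exact h ⟨h3, by omega⟩
        have h5 := hlt n' hn' n hn h4
        refine le_trans (le_of_eq ?_) h5
        rw [← RCLike.norm_conj, map_sum]
        congr 1
        apply sum_congr rfl
        intro V _
        rw [map_mul, Complex.conj_conj, mul_comm]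
      · exact hlt n hn n' hn' h3
  -- expand the square
  have hexp : ((∑ V ∈ Om L M, ‖∑ n ∈ J, e (θ * 2 ^ n * yV y₀ I L M V)‖ ^ 2 : ℝ) : ℂ)
      = ∑ n ∈ J, ∑ n' ∈ J, ∑ V ∈ Om L M, e (θ * 2 ^ n * yV y₀ I L M V)
      * (starRingEnd ℂ) (e (θ * 2 ^ n' * yV y₀ I L M V)) := by
    push_cast
    have h1 : ∀ V ∈ Om L M, ((‖∑ n ∈ J, e (θ * 2 ^ n * yV y₀ I L M V)‖ : ℂ)) ^ 2
        = ∑ n ∈ J, ∑ n' ∈ J, e (θ * 2 ^ n * yV y₀ I L M V)
      * (starRingEnd ℂ) (e (θ * 2 ^ n' * yV y₀ I L M V)) := by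
      intro V _
      rw [← Complex.mul_conj', map_sum, sum_mul_sum]
    rw [sum_congr rfl h1, sum_comm]
    apply sum_congr rfl
    intro n _
    rw [sum_comm]
  have hnn : 0 ≤ ∑ V ∈ Om L M, ‖∑ n ∈ J, e (θ * 2 ^ n * yV y₀ I L M V)‖ ^ 2 :=
    sum_nonneg fun _ _ => by positivity
  have h0 : ∑ V ∈ Om L M, ‖∑ n ∈ J, e (θ * 2 ^ n * yV y₀ I L M V)‖ ^ 2
      = ‖((∑ V ∈ Om L M, ‖∑ n ∈ J, e (θ * 2 ^ n * yV y₀ I L M V)‖ ^ 2 : ℝ) : ℂ)‖ := by
    rw [Complex.norm_real, Real.norm_eq_abs, abs_of_nonneg hnn]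
  rw [h0, hexp]
  refine (norm_sum_le _ _).trans ?_
  refine (sum_le_sum fun n hn => (norm_sum_le _ _).trans (sum_le_sum fun n' hn' =>
    hcorr n hn n' hn')).trans ?_
  simp only [← mul_sum, sum_add_distrib, sum_const, nsmul_eq_mul]
  apply mul_le_mul_of_nonneg_left _ (by positivity)
  have h6 : ∀ n ∈ J, ∑ n' ∈ J, (if n < n' + D ∧ n' < n + D then (1 : ℝ) else 0) ≤ 2 * D := by
    intro n _
    rw [← sum_filter, sum_const, nsmul_eq_mul, mul_one]
    have h7 : J.filter (fun n' => n < n' + D ∧ n' < n + D) ⊆ Ico (n + 1 - D) (n + D) := by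
      intro x hx
      rw [mem_filter] at hx
      rw [mem_Ico]
      omega
    have h8 := card_le_card h7
    rw [Nat.card_Ico] at h8
    have h9 : (J.filter (fun n' => n < n' + D ∧ n' < n + D)).card ≤ 2 * D := by omega
    exact_mod_cast h9
  have h10 := sum_le_sum h6
  rw [sum_const, nsmul_eq_mul, hJc] at h10
  rw [hJc]
  have h11 : 2 * ((M * L : ℝ) * (M * L * η)) = 2 * η * (M * L : ℝ) ^ 2 := by ring
  linarith

/-- **one stage of the construction** -/
theorem stage {b : ℝ} (hb : Irrational b) (y₀ : ℝ) {L : ℕ} (hL : 2 ≤ L) (I F : ℕ) {ε : ℝ}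
    (hε : 0 < ε) : ∃ M₀, ∀ M, M₀ ≤ M → ∃ V ∈ Om L M, ∀ f, 1 ≤ f → f ≤ F →
      ‖∑ n ∈ Ico (I * L) ((I + M) * L), e ((f * b) * 2 ^ n * yV y₀ I L M V)‖ ≤ ε * (M * L) := by
  have hL0 : 0 < L := by omega
  have hL' : (0 : ℝ) < L := by exact_mod_cast hL0
  set η : ℝ := ε ^ 2 / (4 * (F + 1)) with hη
  have hη0 : 0 < η := by positivity
  obtain ⟨R, hR⟩ := exists_R hb hL F hη0
  -- choice of `w`
  obtain ⟨w, hw⟩ : ∃ w : ℕ, R * (2 * Real.pi * (F * |b|) * (1 / 2) ^ w) ≤ η := by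
    set C : ℝ := R * (2 * Real.pi * (F * |b|)) with hC
    have hC0 : 0 ≤ C := by positivity
    obtain ⟨w, hw⟩ := exists_pow_lt_of_lt_one (show 0 < η / (C + 1) by positivity)
      (show (1 / 2 : ℝ) < 1 by norm_num)
    refine ⟨w, ?_⟩
    rw [lt_div_iff₀ (by positivity)] at hw
    have : (0 : ℝ) < (1 / 2) ^ w := by positivity
    calc R * (2 * Real.pi * (F * |b|) * (1 / 2) ^ w) = C * (1 / 2) ^ w := by rw [hC]; ring
      _ ≤ (1 / 2) ^ w * (C + 1) := by nlinarith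
      _ ≤ η := hw.le
  set D : ℕ := (R + 1) * L + w with hD
  obtain ⟨M₀, hM₀⟩ := exists_nat_gt (4 * (F + 1) * D / ε ^ 2)
  refine ⟨M₀ + 1, fun M hM => ?_⟩
  have hM1 : (1 : ℝ) ≤ M := by exact_mod_cast (by omega : 1 ≤ M)
  have hM2 : 4 * (F + 1) * D / ε ^ 2 ≤ M := hM₀.le.trans (by exact_mod_cast (by omega : M₀ ≤ M))
  rw [div_le_iff₀ (by positivity)] at hM2
  -- sum over the frequencies
  have htot : ∑ V ∈ Om L M, ∑ f ∈ Icc 1 F,
      ‖∑ n ∈ Ico (I * L) ((I + M) * L), e ((f * b) * 2 ^ n * yV y₀ I L M V)‖ ^ 2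
      ≤ ∑ V ∈ Om L M, (ε * (M * L)) ^ 2 := by
    rw [sum_comm, sum_const, card_Om, nsmul_eq_mul]
    have h1 : ∀ f ∈ Icc 1 F, ∑ V ∈ Om L M,
        ‖∑ n ∈ Ico (I * L) ((I + M) * L), e ((f * b) * 2 ^ n * yV y₀ I L M V)‖ ^ 2
        ≤ (L : ℝ) ^ M * ((M * L : ℝ) * (2 * D) + 2 * η * (M * L : ℝ) ^ 2) := by
      intro f hf
      rw [mem_Icc] at hf
      refine second_moment (f * b) y₀ hη0.le hL (fun a ha => hR a ha f hf.1 hf.2) ?_
      refine le_trans ?_ hw
      rw [abs_mul, abs_of_nonneg (Nat.cast_nonneg f : (0 : ℝ) ≤ f)]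
      have hfF : (f : ℝ) ≤ F := by exact_mod_cast hf.2
      have : (f : ℝ) * |b| ≤ F * |b| := mul_le_mul_of_nonneg_right hfF (abs_nonneg _)
      have hpi := Real.pi_pos
      gcongr
    refine (sum_le_sum h1).trans ?_
    rw [sum_const, Nat.card_Icc, Nat.add_sub_cancel, nsmul_eq_mul]
    have h2 : (F : ℝ) * ((M * L : ℝ) * (2 * D) + 2 * η * (M * L : ℝ) ^ 2) ≤ (ε * (M * L)) ^ 2 := by
      have hF : (0 : ℝ) ≤ F := by positivity
      have h3 : (F : ℝ) * (2 * η) ≤ ε ^ 2 / 2 := by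
        rw [hη]
        rw [show (F : ℝ) * (2 * (ε ^ 2 / (4 * (F + 1)))) = ε ^ 2 / 2 * (F / (F + 1)) by
          field_simp; ring]
        apply mul_le_of_le_one_right (by positivity)
        rw [div_le_one (by positivity)]
        linarith
      have h4 : (F : ℝ) * (2 * D) ≤ ε ^ 2 / 2 * (M * L) := by
        have hL1 : (1 : ℝ) ≤ L := by exact_mod_cast (by omega : 1 ≤ L)
        have hD0 : (0 : ℝ) ≤ D := by positivity
        have h5 : 4 * ((F : ℝ) + 1) * D ≤ M * ε ^ 2 * L := by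
          have : (M : ℝ) * ε ^ 2 ≤ M * ε ^ 2 * L := le_mul_of_one_le_right (by positivity) hL1
          linarith
        nlinarith
      have hML : (0 : ℝ) ≤ M * L := by positivity
      have h6 := mul_le_mul_of_nonneg_right h4 hML
      have h7 := mul_le_mul_of_nonneg_right h3 (sq_nonneg ((M : ℝ) * L))
      nlinarith
    calc (F : ℝ) * ((L : ℝ) ^ M * ((M * L : ℝ) * (2 * D) + 2 * η * (M * L : ℝ) ^ 2))
        = (L : ℝ) ^ M * ((F : ℝ) * ((M * L : ℝ) * (2 * D) + 2 * η * (M * L : ℝ) ^ 2)) := by ring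
      _ ≤ (L : ℝ) ^ M * (ε * (M * L)) ^ 2 := mul_le_mul_of_nonneg_left h2 (by positivity)
      _ = ((L ^ M : ℕ) : ℝ) * (ε * (M * L)) ^ 2 := by push_cast; ring
  have hne : (Om L M).Nonempty := by
    rw [← card_pos, card_Om]
    positivity
  obtain ⟨V, hV, h⟩ := exists_le_of_sum_le hne htot
  refine ⟨V, hV, fun f hf1 hf2 => ?_⟩
  have h1 := single_le_sum (f := fun f : ℕ =>
      ‖∑ n ∈ Ico (I * L) ((I + M) * L), e ((f * b) * 2 ^ n * yV y₀ I L M V)‖ ^ 2)
      (fun f _ => by positivity) (mem_Icc.2 ⟨hf1, hf2⟩)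
  have h2 := h1.trans h
  exact abs_le_of_sq_le_sq' h2 (by positivity) |>.2

end Pool.Agent.Run7.h792.IM
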