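import Mathlib
import Pool.Agent.Run7.h792.IM.Stage

/-!
The recursive construction of `y` for a given irrational `b`.
-/

set_option autoImplicit false

namespace Pool.Agent.Run7.h792.IM

open Finset Pool.Agent.H520R3 Filter Topology

/-- the number with binary ones at the positions in `P` -/
noncomputable def yP (P : Finset ℕ) : ℝ := ∑ p ∈ P, (1 / 2 : ℝ) ^ p

/-- one step -/
def Step (b : ℝ) (K : ℕ) (σ τ : Finset ℕ × ℕ) : Prop :=
  σ.1 ⊆ τ.1 ∧ (∀ p ∈ τ.1, p ≤ σ.2 → p ∈ σ.1) ∧ σ.2 < τ.2 ∧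
  (∀ N, (τ.1.filter (fun p => p < N)).card ≤ σ.1.card + N / (K + 2) + 1) ∧
  (K + 2) * (σ.1.card + 1) ≤ τ.2 ∧
  ∀ f : ℕ, 1 ≤ f → f ≤ K + 1 →
    ‖∑ n ∈ range τ.2, e ((f * b) * 2 ^ n * yP τ.1)‖ ≤ τ.2 / (K + 1)

lemma exists_step {b : ℝ} (hb : Irrational b) (K : ℕ) (σ : Finset ℕ × ℕ)
    (hσ : σ.1 ⊆ range σ.2) : ∃ τ, τ.1 ⊆ range τ.2 ∧ Step b K σ τ := by
  obtain ⟨P, B⟩ := σ
  simp only at hσ
  set L := K + 2 with hL
  set I := B + 1 with hI
  have hε : (0 : ℝ) < 1 / (2 * (K + 1)) := by positivity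
  obtain ⟨M₀, hM₀⟩ := stage hb (yP P) (L := L) (by omega) I (K + 1) hε
  set M := M₀ + 2 * (K + 1) * (I * L) + P.card + 1 with hM
  obtain ⟨V, hV, hS⟩ := hM₀ M (by omega)
  have hVL : ∀ i, V i < L := by
    intro i
    have := Fintype.mem_piFinset.1 hV i
    exact mem_range.1 this
  set pos : Fin M → ℕ := fun i => (I + i) * L + V i with hpos
  have hinj : Function.Injective pos := by
    intro i j hij
    simp only [hpos] at hij
    have h1 := hVL i
    have h2 := hVL j
    by_contra hne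
    rcases lt_or_gt_of_ne (fun h => hne (Fin.ext h) : (i : ℕ) ≠ j) with h | h
    · have : (I + (i : ℕ) + 1) * L ≤ (I + j) * L := Nat.mul_le_mul_right L (by omega)
      rw [add_mul _ 1] at this
      omega
    · have : (I + (j : ℕ) + 1) * L ≤ (I + i) * L := Nat.mul_le_mul_right L (by omega)
      rw [add_mul _ 1] at this
      omega
  have hposlo : ∀ i, B + 1 ≤ pos i := by
    intro i
    simp only [hpos]
    have : (B + 1) * 1 ≤ (I + i) * L := Nat.mul_le_mul (by omega) (by omega)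
    omega
  have hposhi : ∀ i, pos i < (I + M) * L := by
    intro i
    simp only [hpos]
    have h1 := hVL i
    have : (I + (i : ℕ) + 1) * L ≤ (I + M) * L := Nat.mul_le_mul_right L (by have := i.2; omega)
    rw [add_mul _ 1] at this
    omega
  have hdisj : Disjoint P (univ.image pos) := by
    rw [disjoint_left]
    intro p hp hp'
    rw [mem_image] at hp'
    obtain ⟨i, _, rfl⟩ := hp'
    have h1 := mem_range.1 (hσ hp)
    have := hposlo i
    omega
  have hy : yP (P ∪ univ.image pos) = yV (yP P) I L M V := by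
    unfold yP yV
    rw [sum_union hdisj, sum_image (fun a _ b _ h => hinj h)]
  have hB' : B < (I + M) * L := by
    have : (B + 1) * 1 ≤ (I + M) * L := Nat.mul_le_mul (by omega) (by omega)
    omega
  refine ⟨(P ∪ univ.image pos, (I + M) * L), ?_, subset_union_left, ?_, hB', ?_, ?_, ?_⟩
  · intro p hp
    simp only [mem_union, mem_image, mem_univ, true_and] at hp
    simp only [mem_range]
    rcases hp with hp | ⟨i, rfl⟩
    · have := mem_range.1 (hσ hp)
      omega
    · exact hposhi i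
  · intro p hp hpB
    simp only [mem_union, mem_image, mem_univ, true_and] at hp hpB ⊢
    rcases hp with hp | ⟨i, rfl⟩
    · exact hp
    · have := hposlo i
      omega
  · intro N
    simp only
    rw [filter_union]
    refine (card_union_le _ _).trans ?_
    have h1 : (P.filter (fun p => p < N)).card ≤ P.card := card_filter_le _ _
    have h2 : ((univ.image pos).filter (fun p => p < N)).card ≤ N / L + 1 := by
      have h3 : (univ.image pos).filter (fun p => p < N)
          ⊆ (univ.filter (fun i : Fin M => (I + (i : ℕ)) < N / L + 1)).image pos := by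
        intro p hp
        rw [mem_filter, mem_image] at hp
        obtain ⟨⟨i, _, rfl⟩, h4⟩ := hp
        rw [mem_image]
        refine ⟨i, ?_, rfl⟩
        rw [mem_filter]
        refine ⟨mem_univ _, ?_⟩
        rw [Nat.lt_succ_iff, Nat.le_div_iff_mul_le (by omega)]
        simp only [hpos] at h4
        omega
      refine (card_le_card h3).trans (card_image_le.trans ?_)
      have h5 : (univ.filter (fun i : Fin M => (I + (i : ℕ)) < N / L + 1)).card
          ≤ (range (N / L + 1)).card := by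
        apply card_le_card_of_injOn (fun i : Fin M => I + (i : ℕ))
        · intro i hi
          simp only [coe_filter, mem_univ, true_and, Set.mem_setOf_eq] at hi
          simp only [coe_range, Set.mem_Iio]
          exact hi
        · intro i _ j _ hij
          simp only at hij
          exact Fin.ext (by omega)
      rwa [card_range] at h5
    have h9 : N / (K + 2) = N / L := rfl
    rw [h9]
    omega
  · simp only
    rw [mul_comm]
    exact Nat.mul_le_mul (by omega) (le_refl _)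
  · intro f hf1 hf2
    simp only
    rw [hy]
    have h1 : (range ((I + M) * L)) = range (I * L) ∪ Ico (I * L) ((I + M) * L) := by
      ext x
      simp only [mem_range, mem_union, mem_Ico]
      have : I * L ≤ (I + M) * L := Nat.mul_le_mul_right L (by omega)
      omega
    have h2 : Disjoint (range (I * L)) (Ico (I * L) ((I + M) * L)) := by
      rw [disjoint_left]
      intro x hx hx'
      rw [mem_range] at hx
      rw [mem_Ico] at hx'
      omega
    rw [h1, sum_union h2]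
    refine (norm_add_le _ _).trans ?_
    have h3 : ‖∑ n ∈ range (I * L), e ((f * b) * 2 ^ n * yV (yP P) I L M V)‖ ≤ ((I * L : ℕ) : ℝ) := by
      refine (norm_sum_le _ _).trans ?_
      simp [norm_e]
    have h4 := hS f hf1 (by omega)
    have h5 : ((I * L : ℕ) : ℝ) * (2 * (K + 1)) ≤ (((I + M) * L : ℕ) : ℝ) := by
      have : I * L * (2 * (K + 1)) ≤ (I + M) * L := by
        calc I * L * (2 * (K + 1)) = 2 * (K + 1) * (I * L) * 1 := by ring
          _ ≤ (I + M) * L := Nat.mul_le_mul (by omega) (by omega)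
      exact_mod_cast this
    have h6 : ((M : ℝ) * L) ≤ (((I + M) * L : ℕ) : ℝ) := by
      have : M * L ≤ (I + M) * L := Nat.mul_le_mul_right L (by omega)
      exact_mod_cast this
    have hK : (0 : ℝ) < K + 1 := by positivity
    have h7 : ((I * L : ℕ) : ℝ) ≤ (((I + M) * L : ℕ) : ℝ) / (2 * (K + 1)) := by
      rw [le_div_iff₀ (by positivity)]
      exact h5
    have h8 : 1 / (2 * ((K : ℝ) + 1)) * (M * L) ≤ (((I + M) * L : ℕ) : ℝ) / (2 * (K + 1)) := by
      rw [one_div_mul_eq_div]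
      exact div_le_div_of_nonneg_right h6 (by positivity)
    have h9 : (((I + M) * L : ℕ) : ℝ) / (K + 1) = (((I + M) * L : ℕ) : ℝ) / (2 * (K + 1))
        + (((I + M) * L : ℕ) : ℝ) / (2 * (K + 1)) := by
      field_simp
      ring
    rw [h9]
    exact add_le_add (h3.trans h7) (h4.trans h8)

lemma exists_seq_aux {α : Type*} (Q : ℕ → α → Prop) (R : ℕ → α → α → Prop) (a : α) (h0 : Q 0 a)
    (h : ∀ n x, Q n x → ∃ z, Q (n + 1) z ∧ R n x z) :
    ∃ f : ℕ → α, f 0 = a ∧ ∀ n, Q n (f n) ∧ R n (f n) (f (n + 1)) := by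
  classical
  choose! g hg using h
  let f : ℕ → α := fun n => Nat.rec a (fun n x => g n x) n
  have hf : ∀ n, Q n (f n) := by
    intro n
    induction n with
    | zero => exact h0
    | succ n ih => exact (hg n (f n) ih).1
  exact ⟨f, rfl, fun n => ⟨hf n, (hg n (f n) (hf n)).2⟩⟩

/-- the data of the construction -/
structure Dat (b : ℝ) where
  P : ℕ → Finset ℕ
  B : ℕ → ℕ
  hP : ∀ K, P K ⊆ range (B K)
  hS : ∀ K, Step b K (P K, B K) (P (K + 1), B (K + 1))

theorem exists_dat {b : ℝ} (hb : Irrational b) : Nonempty (Dat b) := by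
  obtain ⟨f, _, hf⟩ := exists_seq_aux (fun (_ : ℕ) (σ : Finset ℕ × ℕ) => σ.1 ⊆ range σ.2)
    (fun K σ τ => Step b K σ τ) (∅, 0) (by simp) (fun K σ hσ => exists_step hb K σ hσ)
  exact ⟨⟨fun K => (f K).1, fun K => (f K).2, fun K => (hf K).1, fun K => (hf K).2⟩⟩

namespace Dat

variable {b : ℝ} (d : Dat b)

lemma B_lt (K : ℕ) : d.B K < d.B (K + 1) := (d.hS K).2.2.1

lemma B_mono : StrictMono d.B := strictMono_nat_of_lt_succ d.B_lt

lemma le_B (K : ℕ) : K ≤ d.B K := d.B_mono.le_apply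

lemma P_mono : Monotone d.P := monotone_nat_of_le_succ fun K => (d.hS K).1

lemma mem_of_le {K K' p : ℕ} (h : K ≤ K') (hp : p ∈ d.P K') (hpB : p ≤ d.B K) : p ∈ d.P K := by
  induction K', h using Nat.le_induction with
  | base => exact hp
  | succ n hn ih => exact ih ((d.hS n).2.1 p hp (hpB.trans (d.B_mono.monotone hn)))

/-- the set of the ones -/
def Pos (p : ℕ) : Prop := ∃ K, p ∈ d.P K

lemma pos_iff {K p : ℕ} (h : p ≤ d.B K) : d.Pos p ↔ p ∈ d.P K := by
  constructor
  · rintro ⟨K', hK'⟩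
    rcases le_total K K' with h1 | h1
    · exact d.mem_of_le h1 hK' h
    · exact d.P_mono h1 hK'
  · intro h1; exact ⟨K, h1⟩

lemma not_pos_B (K : ℕ) : ¬ d.Pos (d.B K) := by
  rw [d.pos_iff (le_refl _)]
  intro h
  have := mem_range.1 (d.hP K h)
  omega

open Classical in
/-- the terms of the series for `y` -/
noncomputable def g (p : ℕ) : ℝ := if d.Pos p then (1 / 2 : ℝ) ^ p else 0

lemma g_nonneg (p : ℕ) : 0 ≤ d.g p := by unfold g; split_ifs <;> positivity

lemma g_le (p : ℕ) : d.g p ≤ (1 / 2 : ℝ) ^ p := by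
  unfold g
  split_ifs
  · exact le_refl _
  · positivity

lemma summable_half : Summable (fun p : ℕ => (1 / 2 : ℝ) ^ p) :=
  summable_geometric_of_lt_one (by norm_num) (by norm_num)

lemma summable_g : Summable d.g := summable_half.of_nonneg_of_le d.g_nonneg d.g_le

/-- the number -/
noncomputable def y : ℝ := ∑' p, d.g p

lemma tsum_half (N : ℕ) : ∑' j, (1 / 2 : ℝ) ^ (N + j) = 2 * (1 / 2) ^ N := by
  simp only [pow_add]
  rw [tsum_mul_left, tsum_geometric_of_lt_one (by norm_num) (by norm_num)]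
  ring

lemma y_split (N : ℕ) : d.y = ∑ p ∈ range N, d.g p + ∑' j, d.g (N + j) := by
  unfold y
  rw [← d.summable_g.sum_add_tsum_nat_add N]
  congr 1
  apply tsum_congr
  intro j
  rw [add_comm]

lemma tail_nonneg (N : ℕ) : 0 ≤ ∑' j, d.g (N + j) := tsum_nonneg fun _ => d.g_nonneg _

lemma summable_tail (N : ℕ) : Summable (fun j => d.g (N + j)) := by
  have := (summable_nat_add_iff N).2 d.summable_g
  simpa [add_comm] using this

lemma summable_half_tail (N : ℕ) : Summable (fun j : ℕ => (1 / 2 : ℝ) ^ (N + j)) := by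
  have := (summable_nat_add_iff N).2 summable_half
  simpa [add_comm] using this

lemma tail_le (N : ℕ) : ∑' j, d.g (N + j) ≤ 2 * (1 / 2) ^ N := by
  rw [← tsum_half]
  exact (d.summable_tail N).tsum_le_tsum (fun j => d.g_le _) (summable_half_tail N)

lemma tail_lt (N : ℕ) : ∑' j, d.g (N + j) < 2 * (1 / 2) ^ N := by
  rw [← tsum_half]
  -- a position without a one
  have h1 : N ≤ d.B N := d.le_B N
  obtain ⟨j, hj⟩ := Nat.exists_eq_add_of_le h1
  refine Summable.tsum_lt_tsum (i := j) (fun j => d.g_le _) ?_ (d.summable_tail N)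
    (summable_half_tail N)
  rw [← hj]
  unfold g
  rw [if_neg (d.not_pos_B N)]
  positivity

lemma yP_eq (K : ℕ) : yP (d.P K) = ∑ p ∈ range (d.B K), d.g p := by
  classical
  unfold yP g
  rw [← sum_filter]
  apply sum_congr _ fun _ _ => rfl
  ext p
  rw [mem_filter, mem_range]
  constructor
  · intro h
    exact ⟨mem_range.1 (d.hP K h), ⟨K, h⟩⟩
  · rintro ⟨h1, h2⟩
    exact (d.pos_iff h1.le).1 h2

lemma y_near (K : ℕ) : |d.y - yP (d.P K)| ≤ 2 * (1 / 2) ^ d.B K := by
  rw [d.y_split (d.B K), yP_eq, add_sub_cancel_left, abs_of_nonneg (d.tail_nonneg _)]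
  exact d.tail_le _

/-- exponential sums along the stages -/
lemma exp_sum (K f : ℕ) (hf1 : 1 ≤ f) (hf2 : f ≤ K + 1) :
    ‖∑ n ∈ range (d.B (K + 1)), e ((f * b) * 2 ^ n * d.y)‖
      ≤ d.B (K + 1) / (K + 1) + 4 * Real.pi * f * |b| := by
  have h1 := (d.hS K).2.2.2.2.2 f hf1 hf2
  simp only at h1
  set B := d.B (K + 1)
  have h2 : ∑ n ∈ range B, e ((f * b) * 2 ^ n * d.y)
      = ∑ n ∈ range B, e ((f * b) * 2 ^ n * yP (d.P (K + 1)))
        + ∑ n ∈ range B, (e ((f * b) * 2 ^ n * d.y) - e ((f * b) * 2 ^ n * yP (d.P (K + 1)))) := by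
    rw [← sum_add_distrib]
    exact sum_congr rfl fun n _ => by ring
  rw [h2]
  refine (norm_add_le _ _).trans (add_le_add h1 ?_)
  refine (norm_sum_le _ _).trans ?_
  have h3 : ∀ n ∈ range B, ‖e ((f * b) * 2 ^ n * d.y) - e ((f * b) * 2 ^ n * yP (d.P (K + 1)))‖
      ≤ 4 * Real.pi * f * |b| * (1 / 2) ^ B * 2 ^ n := by
    intro n _
    refine (norm_e_sub_e_le _ _).trans ?_
    rw [← mul_sub, abs_mul, abs_mul, abs_mul, abs_of_nonneg (Nat.cast_nonneg f : (0 : ℝ) ≤ f),
      abs_of_nonneg (by positivity : (0 : ℝ) ≤ 2 ^ n)]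
    have h4 := d.y_near (K + 1)
    have h5 := mul_le_mul_of_nonneg_left h4
      (by positivity : (0 : ℝ) ≤ 2 * Real.pi * (f * |b| * 2 ^ n))
    calc 2 * Real.pi * (f * |b| * 2 ^ n * |d.y - yP (d.P (K + 1))|)
        = 2 * Real.pi * (f * |b| * 2 ^ n) * |d.y - yP (d.P (K + 1))| := by ring
      _ ≤ _ := h5
      _ = _ := by ring
  refine (sum_le_sum h3).trans ?_
  rw [← mul_sum]
  have h6 : ∑ n ∈ range B, (2 : ℝ) ^ n ≤ 2 ^ B := by
    rw [geom_sum_eq (by norm_num)]
    norm_num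
  calc 4 * Real.pi * f * |b| * (1 / 2) ^ B * ∑ n ∈ range B, (2 : ℝ) ^ n
      ≤ 4 * Real.pi * f * |b| * (1 / 2) ^ B * 2 ^ B := mul_le_mul_of_nonneg_left h6 (by positivity)
    _ = 4 * Real.pi * f * |b| * ((1 / 2) ^ B * 2 ^ B) := by ring
    _ = 4 * Real.pi * f * |b| := by
      rw [← mul_pow]; norm_num

open Classical in
/-- number of ones below `N` -/
noncomputable def cnt (N : ℕ) : ℕ := ((range N).filter (fun p => d.Pos p)).card

lemma card_P_le (K : ℕ) : (K + 2) * (d.P (K + 1)).card ≤ 2 * d.B (K + 1) := by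
  have h1 := (d.hS K).2.2.2.1 (d.B (K + 1))
  have h2 := (d.hS K).2.2.2.2.1
  simp only at h1 h2
  have h3 : (d.P (K + 1)).filter (fun p => p < d.B (K + 1)) = d.P (K + 1) := by
    apply filter_true_of_mem
    intro p hp
    exact mem_range.1 (d.hP _ hp)
  rw [h3] at h1
  have h4 := Nat.mul_le_mul_left (K + 2) h1
  have h5 : (K + 2) * (d.B (K + 1) / (K + 2)) ≤ d.B (K + 1) := Nat.mul_div_le _ _
  nlinarith

lemma cnt_le {K N : ℕ} (h1 : d.B (K + 1) ≤ N) (h2 : N ≤ d.B (K + 2)) :
    (K + 2) * d.cnt N ≤ 3 * N + (K + 2) := by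
  classical
  have h3 : (range N).filter (fun p => d.Pos p) = (d.P (K + 2)).filter (fun p => p < N) := by
    ext p
    rw [mem_filter, mem_filter, mem_range]
    constructor
    · rintro ⟨h4, h5⟩
      exact ⟨(d.pos_iff (by omega)).1 h5, h4⟩
    · rintro ⟨h4, h5⟩
      exact ⟨h5, ⟨_, h4⟩⟩
  have h4 := (d.hS (K + 1)).2.2.2.1 N
  simp only at h4
  have h5 := d.card_P_le K
  have h6 : d.cnt N ≤ (d.P (K + 1)).card + N / (K + 1 + 2) + 1 := by
    unfold cnt
    rw [h3]
    exact h4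
  have h7 : (K + 2) * (N / (K + 1 + 2)) ≤ N := by
    calc (K + 2) * (N / (K + 1 + 2)) ≤ (K + 1 + 2) * (N / (K + 1 + 2)) :=
          Nat.mul_le_mul_right _ (by omega)
      _ ≤ N := Nat.mul_div_le _ _
  have h8 := Nat.mul_le_mul_left (K + 2) h6
  nlinarith

lemma cnt_small : Tendsto (fun N : ℕ => (d.cnt N : ℝ) / N) atTop (𝓝 0) := by
  rw [Metric.tendsto_atTop]
  intro ε hε
  obtain ⟨K₀, hK₀⟩ := exists_nat_gt (6 / ε)
  obtain ⟨N₀, hN₀⟩ := exists_nat_gt (2 / ε)
  refine ⟨max (d.B (K₀ + 1)) N₀ + 1, fun N hN => ?_⟩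
  have hN1 : d.B (K₀ + 1) ≤ N := by
    have := le_max_left (d.B (K₀ + 1)) N₀
    omega
  have hN2 : N₀ ≤ N := by
    have := le_max_right (d.B (K₀ + 1)) N₀
    omega
  have hex : ∃ K, N < d.B K := ⟨N + 1, lt_of_lt_of_le (Nat.lt_succ_self N) (d.le_B _)⟩
  classical
  set K' := Nat.find hex with hK'
  have h1 : N < d.B K' := Nat.find_spec hex
  have h2 : K₀ + 1 < K' := by
    by_contra hc
    push Not at hc
    have := d.B_mono.monotone hc
    omega
  have h3 : d.B (K' - 1) ≤ N := by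
    by_contra hc
    push Not at hc
    exact Nat.find_min hex (by omega : K' - 1 < K') hc
  obtain ⟨K, hK⟩ : ∃ K, K' = K + 2 := ⟨K' - 2, by omega⟩
  rw [hK] at h1 h3
  have h4 := d.cnt_le (K := K) (by simpa using h3) h1.le
  have hN0 : (0 : ℝ) < N := by exact_mod_cast (by omega : 0 < N)
  have h5 : ((K : ℝ) + 2) * d.cnt N ≤ 3 * N + (K + 2) := by exact_mod_cast h4
  have h6 : (K₀ : ℝ) ≤ K := by exact_mod_cast (by omega : K₀ ≤ K)
  have h7 : 6 < ε * (K + 2) := by
    rw [div_lt_iff₀ hε] at hK₀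
    nlinarith
  have h8 : 2 < ε * N := by
    rw [div_lt_iff₀ hε] at hN₀
    have : (N₀ : ℝ) ≤ N := by exact_mod_cast hN2
    nlinarith
  rw [Real.dist_eq, sub_zero, abs_of_nonneg (by positivity), div_lt_iff₀ hN0]
  have hK2 : (0 : ℝ) < (K : ℝ) + 2 := by positivity
  have h9 : ((K : ℝ) + 2) * d.cnt N < (K + 2) * (ε * N) := by
    have h10 : 3 * (N : ℝ) < ε * (K + 2) / 2 * N := by nlinarith
    nlinarith
  exact lt_of_mul_lt_mul_left h9 hK2.le

/-- no one at `n + 1` means a zero digit -/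
lemma digit_zero (n : ℕ) (h : ¬ d.Pos (n + 1)) :
    ⌊d.y * 2 ^ (n + 1)⌋ = 2 * ⌊d.y * 2 ^ n⌋ := by
  classical
  obtain ⟨A, hA⟩ : ∃ A : ℤ, (∑ p ∈ range (n + 1), d.g p) * 2 ^ n = A := by
    refine ⟨∑ p ∈ (range (n + 1)).filter (fun p => d.Pos p), 2 ^ (n - p), ?_⟩
    push_cast
    rw [sum_mul, sum_filter]
    apply sum_congr rfl
    intro p hp
    rw [mem_range] at hp
    unfold g
    split_ifs
    · have : (2 : ℝ) ^ n = 2 ^ p * 2 ^ (n - p) := by rw [← pow_add]; congr 1; omega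
      rw [this, ← mul_assoc, ← mul_pow]
      norm_num
    · simp
  have h1 := d.y_split (n + 1)
  have h2 : ∑' j, d.g (n + 1 + j) = ∑' j, d.g (n + 2 + j) := by
    rw [(d.summable_tail (n + 1)).tsum_eq_zero_add]
    have : d.g (n + 1 + 0) = 0 := by
      unfold g; rw [add_zero, if_neg h]
    rw [this, zero_add]
    apply tsum_congr
    intro j
    congr 1
    ring
  rw [h2] at h1
  have h3 := d.tail_lt (n + 2)
  have h4 := d.tail_nonneg (n + 2)
  set τ := ∑' j, d.g (n + 2 + j)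
  have h5 : τ * 2 ^ n < 1 / 2 := by
    have : (2 : ℝ) * (1 / 2) ^ (n + 2) * 2 ^ n = 1 / 2 := by
      rw [pow_add]
      have : (1 / 2 : ℝ) ^ n * 2 ^ n = 1 := by rw [← mul_pow]; norm_num
      calc (2 : ℝ) * ((1 / 2) ^ n * (1 / 2) ^ 2) * 2 ^ n
          = 2 * (1 / 2) ^ 2 * ((1 / 2) ^ n * 2 ^ n) := by ring
        _ = 1 / 2 := by rw [this]; norm_num
    rw [← this]
    exact mul_lt_mul_of_pos_right h3 (by positivity)
  have h6 : 0 ≤ τ * 2 ^ n := by positivity
  have h7 : ⌊d.y * 2 ^ n⌋ = A := by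
    rw [Int.floor_eq_iff, h1, add_mul, hA]
    constructor <;> linarith
  have h8 : ⌊d.y * 2 ^ (n + 1)⌋ = 2 * A := by
    rw [Int.floor_eq_iff, pow_succ, ← mul_assoc, h1, add_mul, hA]
    push_cast
    constructor <;> linarith
  rw [h7, h8]

end Dat

end Pool.Agent.Run7.h792.IM
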