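import Mathlib
import Pool.Agent.R485.TransS.Box
import Pool.Agent.Run7.h792.RN.Digits
import Pool.Agent.Run7.h792.IM.Rec

/-!
The digits of `y` are almost all zero, the block frequencies of `b y` along the stages are uniform.
-/

set_option autoImplicit false

namespace Pool.Agent.Run7.h792.IM

open Finset Filter Topology Pool.Agent.H520R3

lemma digit_eq (z : ℝ) (n : ℕ) :
    ⌊z * ((2 : ℕ) : ℝ) ^ (n + 1)⌋ - ((2 : ℕ) : ℤ) * ⌊z * ((2 : ℕ) : ℝ) ^ n⌋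
      = ⌊z * ((2 : ℕ) : ℝ) ^ (n + 1)⌋ % ((2 : ℕ) : ℤ) := by
  have h1 : z * ((2 : ℕ) : ℝ) ^ (n + 1) = ((2 : ℕ) : ℝ) * (z * ((2 : ℕ) : ℝ) ^ n) := by
    rw [pow_succ]; ring
  rw [h1, RN.floor_mul 2]
  obtain ⟨h2, h3⟩ := RN.floor_mul_fract_mem 2 (by norm_num) (z * ((2 : ℕ) : ℝ) ^ n)
  rw [add_comm, Int.add_mul_emod_self_left, Int.emod_eq_of_lt h2 h3]
  ring

namespace Dat

variable {b : ℝ} (d : Dat b)

/-- the block frequencies of `b y` along the stages -/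
theorem freq (k : ℕ) (w : Fin k → Fin 2) :
    Tendsto (fun K : ℕ =>
        ((((Finset.range (d.B (K + 1))).filter
            (fun i => ∀ j : Fin k,
              ⌊(b * d.y) * ((2 : ℕ) : ℝ) ^ (i + (j : ℕ) + 1)⌋ % ((2 : ℕ) : ℤ)
                = ((w j : ℕ) : ℤ))).card : ℝ)
          / (d.B (K + 1) : ℝ))) atTop (𝓝 (1 / ((2 : ℕ) : ℝ) ^ k)) := by
  classical
  rw [Metric.tendsto_atTop]
  intro ε hε
  -- the order of the kernel
  obtain ⟨κ, hκ⟩ := exists_nat_gt (24 / ε)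
  have hκ0 : (0 : ℝ) < κ := lt_trans (by positivity) hκ
  have hκ0' : 0 < κ := by exact_mod_cast hκ0
  have hκ1 : 12 / (κ : ℝ) < ε / 2 := by
    rw [div_lt_iff₀ hε] at hκ
    rw [div_lt_iff₀ hκ0]
    linarith
  -- the level
  set C : ℝ := (2 * (κ : ℝ) ^ 3 + 1) + 5 with hC
  have hC0 : 0 < C := by positivity
  set c₁ : ℝ := 1 + 4 * Real.pi * (κ : ℝ) ^ 3 * |b| with hc₁
  have hc₁0 : 0 < c₁ := by
    have := Real.pi_pos
    positivity
  obtain ⟨K₀, hK₀⟩ := exists_nat_gt (c₁ * (2 * C / ε))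
  refine ⟨max K₀ (κ ^ 3), fun K hK => ?_⟩
  have hK1 : K₀ ≤ K := (le_max_left _ _).trans hK
  have hK2 : κ ^ 3 ≤ K := (le_max_right _ _).trans hK
  set N := d.B (K + 1) with hN
  have hNK : K + 1 ≤ N := d.le_B (K + 1)
  have hN0 : 0 < N := by omega
  have hN0' : (0 : ℝ) < N := by exact_mod_cast hN0
  have hK3 : (0 : ℝ) < (K : ℝ) + 1 := by positivity
  set Δ : ℝ := c₁ / (K + 1) with hΔ
  have hΔ0 : 0 ≤ Δ := by positivity
  have hΔC : C * Δ < ε / 2 := by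
    rw [hΔ, ← mul_div_assoc, div_lt_iff₀ hK3]
    have h1 : (K₀ : ℝ) ≤ K := by exact_mod_cast hK1
    have h2 : c₁ * (2 * C / ε) < K + 1 := by linarith
    have h3 : c₁ * (2 * C / ε) * (ε / 2) = C * c₁ := by field_simp
    have h4 := mul_lt_mul_of_pos_right h2 (by positivity : 0 < ε / 2)
    rw [h3] at h4
    linarith
  -- the exponential sums
  have hexp : ∀ f : ℕ, 1 ≤ f → f ≤ κ ^ 3 →
      ‖∑ n ∈ range N, e ((f : ℝ) * (b * d.y * ((2 : ℕ) : ℝ) ^ n))‖ ≤ Δ * N := by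
    intro f hf1 hf2
    have h1 := d.exp_sum K f hf1 (by omega)
    have h2 : ∀ n : ℕ, (f : ℝ) * (b * d.y * ((2 : ℕ) : ℝ) ^ n) = f * b * 2 ^ n * d.y := by
      intro n; push_cast; ring
    simp only [h2]
    refine h1.trans ?_
    have hfk : (f : ℝ) ≤ (κ : ℝ) ^ 3 := by exact_mod_cast hf2
    have h3 : 4 * Real.pi * f * |b| ≤ 4 * Real.pi * (κ : ℝ) ^ 3 * |b| := by
      have := Real.pi_pos
      gcongr
    have h4 : (1 : ℝ) ≤ N / (K + 1) := by
      rw [le_div_iff₀ hK3, one_mul]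
      exact_mod_cast hNK
    have h5 : 0 ≤ 4 * Real.pi * (κ : ℝ) ^ 3 * |b| := by
      have := Real.pi_pos
      positivity
    have h6 : Δ * N = N / (K + 1) + 4 * Real.pi * (κ : ℝ) ^ 3 * |b| * (N / (K + 1)) := by
      rw [hΔ, hc₁]; ring
    rw [h6]
    nlinarith
  have hbox := Pool.Agent.R485.TransS.weyl_box (d := 1) hκ0' (range N) ⟨0, mem_range.2 hN0⟩
    (fun n _ => b * d.y * ((2 : ℕ) : ℝ) ^ n) Δ hΔ0 (by
      intro h hh hle
      have hne : h 0 ≠ 0 := by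
        intro h0
        apply hh
        funext i
        have : i = 0 := Subsingleton.elim _ _
        rw [this, h0]; rfl
      have hle0 := hle 0
      simp only [Finset.univ_unique, Fin.default_eq_zero, Fin.isValue, Finset.sum_singleton,
        card_range]
      obtain ⟨f, hf⟩ : ∃ f : ℕ, |h 0| = f := ⟨(h 0).natAbs, by simp⟩
      have hf1 : 1 ≤ f := by
        have := abs_pos.2 hne
        omega
      have hf2 : f ≤ κ ^ 3 := by
        rw [hf] at hle0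
        exact_mod_cast hle0
      have h1 := hexp f hf1 hf2
      rcases abs_choice (h 0) with h2 | h2
      · have h3 : ((h 0 : ℤ) : ℝ) = f := by rw [← h2, hf]; simp
        rw [h3]
        exact h1
      · have h3 : ((h 0 : ℤ) : ℝ) = -(f : ℝ) := by
          have : h 0 = -(f : ℤ) := by rw [← hf, h2]; ring
          rw [this]; simp
        rw [h3]
        refine le_trans (le_of_eq ?_) h1
        rw [← RCLike.norm_conj, map_sum]
        congr 1
        apply sum_congr rfl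
        intro n _
        have h4 := e_neg (-(f : ℝ) * (b * d.y * ((2 : ℕ) : ℝ) ^ n))
        change (starRingEnd ℂ) (e (-(f : ℝ) * (b * d.y * ((2 : ℕ) : ℝ) ^ n))) = _
        rw [← h4]
        congr 1; ring)
    (fun _ => (RN.Wd 2 (RN.ext w) k : ℝ) / ((2 : ℕ) : ℝ) ^ k)
    (fun _ => (RN.Wd 2 (RN.ext w) k + 1 : ℝ) / ((2 : ℕ) : ℝ) ^ k)
    (fun _ => by positivity)
    (fun _ => by apply div_le_div_of_nonneg_right _ (by positivity); linarith)
    (fun _ => by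
      rw [div_le_one (by positivity)]
      exact_mod_cast RN.Wd_lt (by norm_num) (RN.ext_lt (by norm_num) w) k)
  rw [card_range] at hbox
  simp only [Finset.univ_unique, Fin.default_eq_zero, Fin.isValue, Finset.prod_singleton,
    pow_one, Nat.cast_one, one_mul] at hbox
  have h2 : (RN.Wd 2 (RN.ext w) k + 1 : ℝ) / ((2 : ℕ) : ℝ) ^ k
      - (RN.Wd 2 (RN.ext w) k : ℝ) / ((2 : ℕ) : ℝ) ^ k = 1 / ((2 : ℕ) : ℝ) ^ k := by
    rw [← sub_div]; congr 1; ring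
  rw [h2] at hbox
  have h3 : (range N).filter (fun n => ∀ _i : Fin 1,
      (RN.Wd 2 (RN.ext w) k : ℝ) / ((2 : ℕ) : ℝ) ^ k ≤ Int.fract (b * d.y * ((2 : ℕ) : ℝ) ^ n) ∧
        Int.fract (b * d.y * ((2 : ℕ) : ℝ) ^ n)
          < (RN.Wd 2 (RN.ext w) k + 1 : ℝ) / ((2 : ℕ) : ℝ) ^ k)
      = (range N).filter (fun i => ∀ j : Fin k,
              ⌊(b * d.y) * ((2 : ℕ) : ℝ) ^ (i + (j : ℕ) + 1)⌋ % ((2 : ℕ) : ℤ)
                = ((w j : ℕ) : ℤ)) := by
    apply filter_congr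
    intro n _
    rw [RN.block_interval (by norm_num) w (b * d.y) n]
    constructor
    · intro h; exact h 0
    · intro h _; exact h
  have h4 : (((range N).filter (fun n => ∀ _i : Fin 1,
      (RN.Wd 2 (RN.ext w) k : ℝ) / ((2 : ℕ) : ℝ) ^ k ≤ Int.fract (b * d.y * ((2 : ℕ) : ℝ) ^ n) ∧
        Int.fract (b * d.y * ((2 : ℕ) : ℝ) ^ n)
          < (RN.Wd 2 (RN.ext w) k + 1 : ℝ) / ((2 : ℕ) : ℝ) ^ k)).card : ℝ)
      = (((range N).filter (fun i => ∀ j : Fin k,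
              ⌊(b * d.y) * ((2 : ℕ) : ℝ) ^ (i + (j : ℕ) + 1)⌋ % ((2 : ℕ) : ℤ)
                = ((w j : ℕ) : ℤ))).card : ℝ) := by rw [h3]
  have h5 : |(((range N).filter (fun i => ∀ j : Fin k,
              ⌊(b * d.y) * ((2 : ℕ) : ℝ) ^ (i + (j : ℕ) + 1)⌋ % ((2 : ℕ) : ℤ)
                = ((w j : ℕ) : ℤ))).card : ℝ) - N * (1 / ((2 : ℕ) : ℝ) ^ k)|
      ≤ ((2 * (κ : ℝ) ^ 3 + 1) * Δ + (12 / κ + 5 * Δ)) * N := by
    rw [← h4]
    convert hbox using 6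
  set X : ℝ := (((range N).filter (fun i => ∀ j : Fin k,
              ⌊(b * d.y) * ((2 : ℕ) : ℝ) ^ (i + (j : ℕ) + 1)⌋ % ((2 : ℕ) : ℤ)
                = ((w j : ℕ) : ℤ))).card : ℝ)
  rw [Real.dist_eq]
  have h6 : X / N - 1 / ((2 : ℕ) : ℝ) ^ k = (X - N * (1 / ((2 : ℕ) : ℝ) ^ k)) / N := by
    field_simp
  rw [h6, abs_div, abs_of_pos hN0', div_lt_iff₀ hN0']
  refine h5.trans_lt ?_
  apply mul_lt_mul_of_pos_right _ hN0'
  have : (2 * (κ : ℝ) ^ 3 + 1) * Δ + (12 / κ + 5 * Δ) = C * Δ + 12 / κ := by rw [hC]; ring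
  linarith

end Dat

end Pool.Agent.Run7.h792.IM
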